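import Pool.Agent.Helper64.IG.Goals

/-!
# Project IG, packet TF: tensor factorization of a window
-/

open scoped BigOperators

universe u

namespace Pool.Agent.Helper64.IG.PkTF

theorem left_mem {K : Type*} [Field K] (z : List Bool → K) (m i n1 n2 : ℕ) (cs : List Bool)
    (hcs : cs.length = n2) {h : List Bool → K} (hh : h ∈ Usp z m i (n1 + n2)) :
    slc n1 [] cs h ∈ Usp z m i n1 := by
  have key : Usp z m i (n1 + n2) ≤ (Usp z m i n1).comap (slc n1 [] cs) := by
    conv_lhs => unfold Usp
    rw [Submodule.span_le]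
    rintro f ⟨xs, zs, h1, h2, rfl⟩
    rw [SetLike.mem_coe, Submodule.mem_comap]
    refine Submodule.subset_span ⟨xs, cs ++ zs, h1, ?_, ?_⟩
    · rw [List.length_append, hcs]
      omega
    · funext bs
      simp only [slc, LinearMap.coe_mk, AddHom.coe_mk, List.nil_append]
      by_cases hb : bs.length = n1
      · rw [if_pos hb, if_pos hb, if_pos (by rw [List.length_append, hb, hcs])]
        simp only [List.append_assoc]
      · rw [if_neg hb, if_neg hb]
  exact key hh

theorem right_mem {K : Type*} [Field K] (z : List Bool → K) (m i n1 n2 : ℕ) (bs : List Bool)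
    (hbs : bs.length = n1) {h : List Bool → K} (hh : h ∈ Usp z m i (n1 + n2)) :
    slc n2 bs [] h ∈ Usp z m (i + n1) n2 := by
  have key : Usp z m i (n1 + n2) ≤ (Usp z m (i + n1) n2).comap (slc n2 bs []) := by
    conv_lhs => unfold Usp
    rw [Submodule.span_le]
    rintro f ⟨xs, zs, h1, h2, rfl⟩
    rw [SetLike.mem_coe, Submodule.mem_comap]
    refine Submodule.subset_span ⟨xs ++ bs, zs, ?_, by omega, ?_⟩
    · rw [List.length_append, hbs, h1]
    · funext cs
      simp only [slc, LinearMap.coe_mk, AddHom.coe_mk, List.append_nil]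
      by_cases hb : cs.length = n2
      · rw [if_pos hb, if_pos hb, if_pos (by rw [List.length_append, hb, hbs])]
        simp only [List.append_assoc]
      · rw [if_neg hb, if_neg hb]
  exact key hh

theorem tf : G_TF.{u} := by
  intro K _ D z m i n1 n2 r1 r2 Ba Bb hBa hBb h hh
  obtain ⟨-, -, hA⟩ := hBa
  obtain ⟨-, -, hB⟩ := hBb
  -- coefficients
  have h1 : ∀ cs : List Bool, ∃ c : Fin D → K, cs.length = n2 → ∑ β, c β • Ba β = slc n1 [] cs h := by
    intro cs
    by_cases hcs : cs.length = n2
    · have h2 := left_mem z m i n1 n2 cs hcs hh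
      rw [← hA, Submodule.mem_span_range_iff_exists_fun] at h2
      obtain ⟨c, hc⟩ := h2
      exact ⟨c, fun _ => hc⟩
    · exact ⟨0, fun h => absurd h hcs⟩
  choose κ hκ using h1
  let κt : Fin D → List Bool → K := fun β cs => if cs.length = n2 then κ cs β else 0
  have hrow : ∀ bs : List Bool, bs.length = n1 →
      slc n2 bs [] h = ∑ β, Ba β bs • κt β := by
    intro bs hbs
    funext cs
    rw [Finset.sum_apply]
    simp only [slc, LinearMap.coe_mk, AddHom.coe_mk, List.append_nil, Pi.smul_apply, smul_eq_mul, κt]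
    by_cases hcs : cs.length = n2
    · rw [if_pos hcs]
      have h3 := congrFun (hκ cs hcs) bs
      rw [Finset.sum_apply] at h3
      simp only [slc, LinearMap.coe_mk, AddHom.coe_mk, List.nil_append, Pi.smul_apply,
        smul_eq_mul, if_pos hbs] at h3
      rw [← h3]
      refine Finset.sum_congr rfl fun β _ => ?_
      rw [if_pos hcs, mul_comm]
    · rw [if_neg hcs]
      symm
      refine Finset.sum_eq_zero fun β _ => ?_
      rw [if_neg hcs, mul_zero]
  -- a projection to the window on the right
  obtain ⟨g, hg⟩ := LinearMap.exists_leftInverse_of_injective (Usp z m (i + n1) n2).subtype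
    (Submodule.ker_subtype _)
  have hg' : ∀ f ∈ Usp z m (i + n1) n2, ((g f : Usp z m (i + n1) n2) : List Bool → K) = f := by
    intro f hf
    have h4 := LinearMap.congr_fun hg ⟨f, hf⟩
    simp only [LinearMap.comp_apply, Submodule.subtype_apply, LinearMap.id_apply] at h4
    rw [h4]
  have h5 : ∀ β, ∃ c : Fin D → K, ∑ γ, c γ • Bb γ = ((g (κt β) : Usp z m (i + n1) n2) :
      List Bool → K) := by
    intro β
    have h6 : ((g (κt β) : Usp z m (i + n1) n2) : List Bool → K) ∈
        Submodule.span K (Set.range Bb) := hB.symm ▸ (g (κt β)).2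
    exact (Submodule.mem_span_range_iff_exists_fun K).1 h6
  choose x hx using h5
  refine ⟨x, fun bs hbs => ?_⟩
  have hl1 : (bs.take n1).length = n1 := by
    rw [List.length_take]
    omega
  have hl2 : (bs.drop n1).length = n2 := by
    rw [List.length_drop]
    omega
  have h7 := hg' _ (right_mem z m i n1 n2 (bs.take n1) hl1 hh)
  rw [hrow _ hl1, map_sum] at h7
  have h8 := congrFun h7 (bs.drop n1)
  rw [← hrow _ hl1] at h8
  simp only [slc, LinearMap.coe_mk, AddHom.coe_mk, List.append_nil, if_pos hl2,
    List.take_append_drop] at h8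
  rw [← h8]
  simp only [map_smul, Submodule.coe_sum, Submodule.coe_smul, Finset.sum_apply, Pi.smul_apply,
    smul_eq_mul]
  refine Finset.sum_congr rfl fun β _ => ?_
  have h9 := congrFun (hx β) (bs.drop n1)
  rw [Finset.sum_apply] at h9
  simp only [Pi.smul_apply, smul_eq_mul] at h9
  rw [← h9, Finset.mul_sum]
  refine Finset.sum_congr rfl fun γ _ => ?_
  ring

end Pool.Agent.Helper64.IG.PkTF
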