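import Pool.Agent.Helper89.IG.Defs

/-!
`{a, t}` invariably generates any group generated by `a, t` with `t a ^ 2 t⁻¹ = a ^ 3`.
-/

namespace Pool.Agent.Helper89.IG

/-- Numbers of the form `2 ^ i * 3 ^ j`. -/
def Smooth (n : ℕ) : Prop := ∃ i j : ℕ, n = 2 ^ i * 3 ^ j

theorem Smooth.mul {m n : ℕ} (hm : Smooth m) (hn : Smooth n) : Smooth (m * n) := by
  obtain ⟨i, j, rfl⟩ := hm
  obtain ⟨k, l, rfl⟩ := hn
  exact ⟨i + k, j + l, by ring⟩

section

variable {G : Type*} [Group G] {a t : G}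

theorem conj_pow_eq (g x : G) (n : ℕ) : g * x ^ n * g⁻¹ = (g * x * g⁻¹) ^ n := by
  rw [conj_pow]

/-- every `g` conjugates a smooth power of `a` to a smooth power of `a` -/
theorem exists_smooth (hrel : t * a ^ 2 * t⁻¹ = a ^ 3) (hgen : Subgroup.closure {a, t} = ⊤)
    (g : G) : ∃ l k : ℕ, Smooth l ∧ Smooth k ∧ g * a ^ l * g⁻¹ = a ^ k := by
  have hg : g ∈ Subgroup.closure {a, t} := by rw [hgen]; trivial
  induction hg using Subgroup.closure_induction with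
  | mem x hx =>
    rcases hx with rfl | hx
    · exact ⟨1, 1, ⟨0, 0, rfl⟩, ⟨0, 0, rfl⟩, by group⟩
    · rw [Set.mem_singleton_iff] at hx
      subst hx
      exact ⟨2, 3, ⟨1, 0, rfl⟩, ⟨0, 1, rfl⟩, hrel⟩
  | one => exact ⟨1, 1, ⟨0, 0, rfl⟩, ⟨0, 0, rfl⟩, by group⟩
  | mul x y _ _ hx hy =>
    obtain ⟨l1, k1, hl1, hk1, h1⟩ := hx
    obtain ⟨l2, k2, hl2, hk2, h2⟩ := hy
    refine ⟨l1 * l2, k1 * k2, hl1.mul hl2, hk1.mul hk2, ?_⟩
    have e1 : y * a ^ (l1 * l2) * y⁻¹ = a ^ (l1 * k2) := by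
      rw [mul_comm l1 l2, pow_mul, ← conj_pow, h2, ← pow_mul, mul_comm]
    have e2 : x * a ^ (l1 * k2) * x⁻¹ = a ^ (k1 * k2) := by
      rw [pow_mul, ← conj_pow, h1, ← pow_mul]
    calc x * y * a ^ (l1 * l2) * (x * y)⁻¹ = x * (y * a ^ (l1 * l2) * y⁻¹) * x⁻¹ := by group
      _ = _ := by rw [e1, e2]
  | inv x _ hx =>
    obtain ⟨l, k, hl, hk, h⟩ := hx
    refine ⟨k, l, hk, hl, ?_⟩
    rw [← h]; group

/-- descent: if `τ x ^ 2 τ⁻¹ = x ^ 3` and a smooth power of `x` lies in `H ∋ τ`, then `x ∈ H` -/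
theorem descent {x τ : G} (hrel : τ * x ^ 2 * τ⁻¹ = x ^ 3) (H : Subgroup G) (hτ : τ ∈ H)
    (i j : ℕ) : x ^ (2 ^ i * 3 ^ j) ∈ H → x ∈ H := by
  induction i with
  | zero =>
    induction j with
    | zero => intro h; simpa using h
    | succ j ih =>
      intro h
      apply ih
      -- `τ⁻¹ x^(3m) τ = x^(2m)`
      have e : τ⁻¹ * x ^ (2 ^ 0 * 3 ^ (j + 1)) * τ = x ^ (2 * 3 ^ j) := by
        have e0 : x ^ (2 ^ 0 * 3 ^ (j + 1)) = (τ * x ^ 2 * τ⁻¹) ^ (3 ^ j) := by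
          rw [hrel, ← pow_mul]; congr 1; ring
        rw [e0, conj_pow, ← pow_mul]; group
      have m1 : x ^ (2 * 3 ^ j) ∈ H := by
        rw [← e]; exact H.mul_mem (H.mul_mem (H.inv_mem hτ) h) hτ
      have e2 : x ^ (2 ^ 0 * 3 ^ j) = x ^ (2 ^ 0 * 3 ^ (j + 1)) * (x ^ (2 * 3 ^ j))⁻¹ := by
        rw [eq_mul_inv_iff_mul_eq, ← pow_add]; congr 1; ring
      rw [e2]
      exact H.mul_mem h (H.inv_mem m1)
  | succ i ih =>
    intro h
    apply ih
    have e : τ * x ^ (2 ^ (i + 1) * 3 ^ j) * τ⁻¹ = x ^ (3 * (2 ^ i * 3 ^ j)) := by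
      have e0 : x ^ (2 ^ (i + 1) * 3 ^ j) = (x ^ 2) ^ (2 ^ i * 3 ^ j) := by
        rw [← pow_mul]; congr 1; ring
      rw [e0, ← conj_pow, hrel, ← pow_mul]
    have m1 : x ^ (3 * (2 ^ i * 3 ^ j)) ∈ H := by
      rw [← e]; exact H.mul_mem (H.mul_mem hτ h) (H.inv_mem hτ)
    have e2 : x ^ (2 ^ i * 3 ^ j) = x ^ (3 * (2 ^ i * 3 ^ j)) * (x ^ (2 ^ (i + 1) * 3 ^ j))⁻¹ := by
      rw [eq_mul_inv_iff_mul_eq, ← pow_add]; congr 1; ring
    rw [e2]
    exact H.mul_mem m1 (H.inv_mem h)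

theorem closure_conj_eq_top (hgen : Subgroup.closure {a, t} = ⊤) (g : G) (H : Subgroup G)
    (ha : g * a * g⁻¹ ∈ H) (ht : g * t * g⁻¹ ∈ H) : H = ⊤ := by
  rw [eq_top_iff]
  intro y _
  have h1 : g⁻¹ * y * g ∈ Subgroup.closure {a, t} := by rw [hgen]; trivial
  have h2 : ∀ z ∈ Subgroup.closure {a, t}, g * z * g⁻¹ ∈ H := by
    intro z hz
    induction hz using Subgroup.closure_induction with
    | mem x hx =>
      rcases hx with rfl | hx
      · exact ha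
      · rw [Set.mem_singleton_iff] at hx; subst hx; exact ht
    | one => simp
    | mul x y _ _ hx hy =>
      have : g * (x * y) * g⁻¹ = (g * x * g⁻¹) * (g * y * g⁻¹) := by group
      rw [this]; exact H.mul_mem hx hy
    | inv x _ hx =>
      have : g * x⁻¹ * g⁻¹ = (g * x * g⁻¹)⁻¹ := by group
      rw [this]; exact H.inv_mem hx
  have h3 := h2 _ h1
  have : g * (g⁻¹ * y * g) * g⁻¹ = y := by group
  rwa [this] at h3

/-- `{a, t}` invariably generates `G`. -/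
theorem invariablyGenerates_pair (hrel : t * a ^ 2 * t⁻¹ = a ^ 3)
    (hgen : Subgroup.closure {a, t} = ⊤) : InvariablyGenerates ({a, t} : Set G) := by
  intro c
  set H : Subgroup G := Subgroup.closure ((fun s => c s * s * (c s)⁻¹) '' ({a, t} : Set G)) with hH
  have ha : c a * a * (c a)⁻¹ ∈ H :=
    Subgroup.subset_closure ⟨a, by simp, rfl⟩
  have ht : c t * t * (c t)⁻¹ ∈ H :=
    Subgroup.subset_closure ⟨t, by simp, rfl⟩
  -- `g = (c a)⁻¹ * c t`
  obtain ⟨l, k, ⟨i, j, hl⟩, -, h⟩ := exists_smooth hrel hgen ((c a)⁻¹ * c t)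
  set x : G := c t * a * (c t)⁻¹ with hx
  set τ : G := c t * t * (c t)⁻¹ with hτ
  have hrel' : τ * x ^ 2 * τ⁻¹ = x ^ 3 := by
    have : τ * x ^ 2 * τ⁻¹ = c t * (t * a ^ 2 * t⁻¹) * (c t)⁻¹ := by
      rw [hx, hτ, conj_pow]; group
    rw [this, hrel, hx, conj_pow]
  have hxl : x ^ l ∈ H := by
    have e : x ^ l = (c a * a * (c a)⁻¹) ^ k := by
      rw [hx, conj_pow, conj_pow, ← h]; group
    rw [e]; exact H.pow_mem ha k
  rw [hl] at hxl
  have hxH : x ∈ H := descent hrel' H ht i j hxl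
  exact closure_conj_eq_top hgen (c t) H hxH ht

end

/-- the generator `a` of `BS(2,3)` -/
def bsa : BS23 := PresentedGroup.of false

/-- the generator `t` of `BS(2,3)` -/
def bst : BS23 := PresentedGroup.of true

theorem bs_rel : bst * bsa ^ 2 * bst⁻¹ = bsa ^ 3 := by
  have h : (PresentedGroup.mk ({FreeGroup.of true * FreeGroup.of false ^ 2 *
      (FreeGroup.of true)⁻¹ * (FreeGroup.of false ^ 3)⁻¹} : Set (FreeGroup Bool)))
      (FreeGroup.of true * FreeGroup.of false ^ 2 * (FreeGroup.of true)⁻¹ *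
      (FreeGroup.of false ^ 3)⁻¹) = 1 :=
    PresentedGroup.one_of_mem (by simp)
  simp only [map_mul, map_pow, map_inv] at h
  exact mul_inv_eq_one.mp h

theorem bs_gen : Subgroup.closure {bsa, bst} = ⊤ := by
  have h := PresentedGroup.closure_range_of ({FreeGroup.of true * FreeGroup.of false ^ 2 *
      (FreeGroup.of true)⁻¹ * (FreeGroup.of false ^ 3)⁻¹} : Set (FreeGroup Bool))
  rw [eq_top_iff, ← h, Subgroup.closure_le]
  rintro _ ⟨b, rfl⟩
  apply Subgroup.subset_closure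
  cases b
  · left; rfl
  · right; rfl

theorem bs_fig : IsFinitelyInvariablyGenerated BS23 :=
  ⟨{bsa, bst}, by simp, invariablyGenerates_pair bs_rel bs_gen⟩

theorem bs_ig : IsInvariablyGenerated BS23 :=
  ⟨{bsa, bst}, invariablyGenerates_pair bs_rel bs_gen⟩

end Pool.Agent.Helper89.IG
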