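import Mathlib

/-!
Definitions for the problem MP_078bdc_al: invariable generation, geodesic and Gromov hyperbolic
metric spaces, the Gromov boundary, loxodromic isometries and actions of general type.
-/

open Filter Topology

namespace Pool.Agent.Helper89.IG

section InvariableGeneration

variable {G : Type*} [Group G]

/-- `S` invariably generates `G`: for every choice of conjugating elements `c s`, the elements
`c s * s * (c s)⁻¹`, `s ∈ S`, generate `G`. -/
def InvariablyGenerates (S : Set G) : Prop :=
  ∀ c : G → G, Subgroup.closure ((fun s => c s * s * (c s)⁻¹) '' S) = ⊤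

variable (G) in
/-- `G` is invariably generated. -/
def IsInvariablyGenerated : Prop := ∃ S : Set G, InvariablyGenerates S

variable (G) in
/-- `G` is finitely invariably generated. -/
def IsFinitelyInvariablyGenerated : Prop := ∃ S : Set G, S.Finite ∧ InvariablyGenerates S

end InvariableGeneration

section Hyperbolic

variable (X : Type*) [MetricSpace X]

/-- Any two points of `X` are joined by a geodesic segment. -/
def IsGeodesicSpace : Prop :=
  ∀ x y : X, ∃ γ : ℝ → X, γ 0 = x ∧ γ (dist x y) = y ∧
    ∀ s ∈ Set.Icc 0 (dist x y), ∀ t ∈ Set.Icc 0 (dist x y), dist (γ s) (γ t) = |s - t|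

variable {X} in
/-- The Gromov product `(x|y)_o`. -/
noncomputable def gromovProduct (x y o : X) : ℝ := (dist x o + dist y o - dist x y) / 2

/-- `X` is `δ`-hyperbolic in the sense of Gromov. -/
def IsGromovHyperbolic (δ : ℝ) : Prop :=
  ∀ o x y z : X, min (gromovProduct x z o) (gromovProduct z y o) - δ ≤ gromovProduct x y o

/-- A hyperbolic space: geodesic, and `δ`-hyperbolic for some `δ ≥ 0`. -/
def IsHyperbolicSpace : Prop := IsGeodesicSpace X ∧ ∃ δ : ℝ, 0 ≤ δ ∧ IsGromovHyperbolic X δ

variable {X} in
/-- The sequence `x` converges to infinity: `(x m|x n)_o → ∞` as `m, n → ∞`. -/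
def ConvergesToInfinity (x : ℕ → X) : Prop :=
  ∀ o : X, Tendsto (fun p : ℕ × ℕ => gromovProduct (x p.1) (x p.2) o) atTop atTop

/-- Sequences converging to infinity are equivalent if `(x n|y n)_o → ∞`. -/
def BoundaryRel (x y : {x : ℕ → X // ConvergesToInfinity x}) : Prop :=
  ∀ o : X, Tendsto (fun n : ℕ => gromovProduct (x.1 n) (y.1 n) o) atTop atTop

/-- The Gromov boundary of `X`: classes of sequences converging to infinity. -/
def GromovBoundary : Type _ := Quot (BoundaryRel X)

end Hyperbolic

section Action

variable {G : Type*} [Group G] {X : Type*} [MetricSpace X] [MulAction G X] [IsIsometricSMul G X]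

theorem gromovProduct_smul (g : G) (x y o : X) :
    gromovProduct (g • x) (g • y) o = gromovProduct x y (g⁻¹ • o) := by
  have h1 : ∀ z : X, dist (g • z) o = dist z (g⁻¹ • o) := by
    intro z
    have := dist_smul g z (g⁻¹ • o)
    rwa [smul_inv_smul] at this
  simp only [gromovProduct, h1, dist_smul]

theorem ConvergesToInfinity.smul (g : G) {x : ℕ → X} (hx : ConvergesToInfinity x) :
    ConvergesToInfinity (fun n => g • x n) := by
  intro o
  simpa only [gromovProduct_smul] using hx (g⁻¹ • o)

variable (X) in
/-- The map of the Gromov boundary induced by `g`: the class of `(x n)` goes to the class of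
`(g • x n)`. -/
def boundaryMap (g : G) : GromovBoundary X → GromovBoundary X :=
  Quot.map (fun x => ⟨fun n => g • x.1 n, x.2.smul g⟩) (by
    intro x y h o
    simpa only [gromovProduct_smul] using h (g⁻¹ • o))

variable (X) in
/-- The fixed points of `g` on the Gromov boundary. -/
def boundaryFixedPoints (g : G) : Set (GromovBoundary X) := {ξ | boundaryMap X g ξ = ξ}

variable (X) in
/-- `g` is loxodromic: `n ↦ g ^ n • x` is a quasi-isometric embedding of `ℤ` for some `x`. -/
def IsLoxodromic (g : G) : Prop :=
  ∃ (x : X) (K C : ℝ), 1 ≤ K ∧ 0 ≤ C ∧ ∀ m n : ℤ,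
    |(m : ℝ) - n| / K - C ≤ dist (g ^ m • x) (g ^ n • x) ∧
      dist (g ^ m • x) (g ^ n • x) ≤ K * |(m : ℝ) - n| + C

variable (G X) in
/-- The action of `G` on `X` is of general type: there are two loxodromic elements of `G` whose
sets of fixed points on the Gromov boundary are disjoint. -/
def IsGeneralType : Prop :=
  ∃ g h : G, IsLoxodromic X g ∧ IsLoxodromic X h ∧
    Disjoint (boundaryFixedPoints X g) (boundaryFixedPoints X h)

end Action

/-- `G` admits an isometric action of general type on some hyperbolic space. -/
def HasGeneralTypeAction (G : Type) [Group G] : Prop :=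
  ∃ (X : Type) (_ : MetricSpace X) (_ : MulAction G X) (_ : IsIsometricSMul G X),
    IsHyperbolicSpace X ∧ IsGeneralType G X

/-- The Baumslag-Solitar group `BS(2,3) = ⟨a, t | t a ^ 2 t⁻¹ = a ^ 3⟩`; the generator `a` is
`false` and `t` is `true`. -/
abbrev BS23 : Type :=
  PresentedGroup ({FreeGroup.of true * FreeGroup.of false ^ 2 * (FreeGroup.of true)⁻¹ *
    (FreeGroup.of false ^ 3)⁻¹} : Set (FreeGroup Bool))

end Pool.Agent.Helper89.IG
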