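import Pool.Agent.Helper89.IG.Defs

/-!
The tight span (injective hull) of a metric space: it is geodesic, it is `0`-hyperbolic if the
space is, and isometries of the space extend to it.
-/

open Filter Topology

namespace Pool.Agent.Helper89.IG

variable {V : Type*} [MetricSpace V]

/-- `f` is in `Δ(V)` -/
def IsDelta (f : V → ℝ) : Prop := ∀ x y : V, dist x y ≤ f x + f y

/-- `f` has gap at most `c` -/
def HasGap (f : V → ℝ) (c : ℝ) : Prop := ∀ x : V, ∀ ε > 0, ∃ y : V, f x + f y < dist x y + c + ε

theorem IsDelta.nonneg {f : V → ℝ} (hf : IsDelta f) (x : V) : 0 ≤ f x := by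
  have := hf x x
  rw [dist_self] at this
  linarith

variable (V) in
/-- The tight span of `V`: the extremal functions. -/
def TightSpan : Type _ := {f : V → ℝ // IsDelta f ∧ HasGap f 0}

namespace TightSpan

instance : CoeFun (TightSpan V) (fun _ => V → ℝ) := ⟨fun f => f.1⟩

@[ext] theorem ext' {f g : TightSpan V} (h : ∀ x, f x = g x) : f = g := Subtype.ext (funext h)

theorem isDelta (f : TightSpan V) : IsDelta f.1 := f.2.1

theorem exists_lt (f : TightSpan V) (x : V) {ε : ℝ} (hε : 0 < ε) :
    ∃ y : V, f x + f y < dist x y + ε := by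
  obtain ⟨y, hy⟩ := f.2.2 x ε hε
  exact ⟨y, by linarith⟩

theorem lip (f : TightSpan V) (x y : V) : f x ≤ f y + dist x y := by
  refine le_of_forall_pos_lt_add ?_
  intro ε hε
  obtain ⟨z, hz⟩ := f.exists_lt x hε
  have h1 := f.isDelta y z
  have h2 := dist_triangle x y z
  linarith

theorem sub_le (f g : TightSpan V) (x v : V) : |f x - g x| ≤ f v + g v := by
  rw [abs_sub_le_iff]
  constructor
  · have h1 := f.lip x v
    have h2 := g.isDelta x v
    linarith
  · have h1 := g.lip x v
    have h2 := f.isDelta x v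
    linarith

theorem bdd (f g : TightSpan V) : BddAbove (Set.range fun x => |f x - g x|) := by
  by_cases hV : Nonempty V
  · obtain ⟨v⟩ := hV
    refine ⟨f v + g v, ?_⟩
    rintro _ ⟨x, rfl⟩
    exact sub_le f g x v
  · rw [not_nonempty_iff] at hV
    simp

noncomputable instance : Dist (TightSpan V) := ⟨fun f g => ⨆ x, |f x - g x|⟩

theorem dist_def (f g : TightSpan V) : dist f g = ⨆ x, |f x - g x| := rfl

theorem abs_le_dist (f g : TightSpan V) (x : V) : |f x - g x| ≤ dist f g :=
  le_ciSup (bdd f g) x

theorem dist_nonneg' (f g : TightSpan V) : 0 ≤ dist f g :=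
  Real.iSup_nonneg fun _ => abs_nonneg _

theorem dist_le' (f g : TightSpan V) {C : ℝ} (hC : 0 ≤ C) (h : ∀ x, |f x - g x| ≤ C) :
    dist f g ≤ C :=
  Real.iSup_le h hC

noncomputable instance : MetricSpace (TightSpan V) where
  dist_self f := by simp [dist_def]
  dist_comm f g := by
    rw [dist_def, dist_def]
    congr 1
    funext x
    exact abs_sub_comm _ _
  dist_triangle f g h := by
    apply dist_le' _ _ (add_nonneg (dist_nonneg' _ _) (dist_nonneg' _ _))
    intro x
    calc |f x - h x| ≤ |f x - g x| + |g x - h x| := abs_sub_le _ _ _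
      _ ≤ _ := add_le_add (abs_le_dist _ _ _) (abs_le_dist _ _ _)
  eq_of_dist_eq_zero := by
    intro f g h
    ext x
    have := abs_le_dist f g x
    rw [h] at this
    have h2 := abs_nonneg (f x - g x)
    have h3 : |f x - g x| = 0 := le_antisymm this h2
    rw [abs_eq_zero] at h3
    linarith

/-- The embedding of `V` in its tight span. -/
def emb (v : V) : TightSpan V := ⟨fun x => dist v x, by
  constructor
  · intro x y
    have := dist_triangle x v y
    rw [dist_comm x v] at this
    exact this
  · intro x ε hε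
    refine ⟨v, ?_⟩
    simp only [dist_self]
    rw [dist_comm v x]
    linarith⟩

@[simp] theorem emb_apply (v x : V) : emb v x = dist v x := rfl

@[simp] theorem dist_emb (v w : V) : dist (emb v) (emb w) = dist v w := by
  apply le_antisymm
  · apply dist_le' _ _ dist_nonneg
    intro x
    simp only [emb_apply]
    have := abs_dist_sub_le v w x
    exact this
  · have := abs_le_dist (emb v) (emb w) w
    simp only [emb_apply, dist_self, sub_zero] at this
    rwa [abs_of_nonneg dist_nonneg] at this

theorem exists_dist_lt (f g : TightSpan V) {ε : ℝ} (hε : 0 < ε) [Nonempty V] :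
    ∃ x y : V, dist f g < dist x y - f x - g y + ε := by
  obtain ⟨x, hx⟩ := exists_lt_of_lt_ciSup (show dist f g - ε / 2 < ⨆ x, |f x - g x| by
    rw [← dist_def]; linarith)
  rcases le_total 0 (f x - g x) with h | h
  · rw [abs_of_nonneg h] at hx
    obtain ⟨y, hy⟩ := f.exists_lt x (half_pos hε)
    refine ⟨y, x, ?_⟩
    rw [dist_comm y x]
    linarith
  · rw [abs_of_nonpos h] at hx
    obtain ⟨y, hy⟩ := g.exists_lt x (half_pos hε)
    refine ⟨x, y, ?_⟩
    linarith

theorem sub_le_dist (f g : TightSpan V) (x y : V) : dist x y - f x - g y ≤ dist f g := by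
  have h1 := f.isDelta x y
  have h2 := abs_le_dist f g y
  have h3 := le_abs_self (f y - g y)
  linarith

/-- the four point inequality passes to the tight span -/
theorem four_point [Nonempty V]
    (h4 : ∀ x y z w : V, dist x y + dist z w ≤ max (dist x z + dist y w) (dist x w + dist y z))
    (f g h k : TightSpan V) :
    dist f g + dist h k ≤ max (dist f h + dist g k) (dist f k + dist g h) := by
  refine le_of_forall_pos_lt_add ?_
  intro ε hε
  obtain ⟨x, y, hxy⟩ := exists_dist_lt f g (half_pos hε)
  obtain ⟨z, w, hzw⟩ := exists_dist_lt h k (half_pos hε)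
  have h5 := h4 x y z w
  have a1 := sub_le_dist f h x z
  have a2 := sub_le_dist g k y w
  have a3 := sub_le_dist f k x w
  have a4 := sub_le_dist g h y z
  rcases le_max_iff.mp h5 with h6 | h6
  · have := le_max_left (dist f h + dist g k) (dist f k + dist g h)
    linarith
  · have := le_max_right (dist f h + dist g k) (dist f k + dist g h)
    linarith

/-! ### The retraction -/

/-- `f*(x) = sup_y (d(x,y) - f(y))` -/
noncomputable def star (f : V → ℝ) (x : V) : ℝ := ⨆ y, (dist x y - f y)

theorem star_bdd {f : V → ℝ} (hf : IsDelta f) (x : V) :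
    BddAbove (Set.range fun y => dist x y - f y) := by
  refine ⟨f x, ?_⟩
  rintro _ ⟨y, rfl⟩
  have := hf x y
  simp only
  linarith

theorem le_star {f : V → ℝ} (hf : IsDelta f) (x y : V) : dist x y ≤ star f x + f y := by
  have := le_ciSup (star_bdd hf x) y
  simp only [star]
  linarith

theorem star_le {f : V → ℝ} (hf : IsDelta f) [Nonempty V] (x : V) : star f x ≤ f x := by
  apply ciSup_le
  intro y
  have := hf x y
  linarith

/-- averaging with `f*` -/
noncomputable def avg (f : V → ℝ) (x : V) : ℝ := (f x + star f x) / 2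

theorem avg_le {f : V → ℝ} (hf : IsDelta f) [Nonempty V] (x : V) : avg f x ≤ f x := by
  have := star_le hf x
  simp only [avg]
  linarith

theorem avg_isDelta {f : V → ℝ} (hf : IsDelta f) : IsDelta (avg f) := by
  intro x y
  have h1 := le_star hf x y
  have h2 := le_star hf y x
  rw [dist_comm y x] at h2
  simp only [avg]
  linarith

theorem avg_gap {f : V → ℝ} (hf : IsDelta f) [Nonempty V] {c : ℝ} (hc : HasGap f c) :
    HasGap (avg f) (c / 2) := by
  intro x ε hε
  obtain ⟨y, hy⟩ := exists_lt_of_lt_ciSup (show star f x - ε / 2 < ⨆ y, (dist x y - f y) by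
    simp only [star]; linarith)
  -- `f x ≤ f* x + c`
  have h1 : f x ≤ star f x + c := by
    refine le_of_forall_pos_lt_add ?_
    intro η hη
    obtain ⟨z, hz⟩ := hc x η hη
    have := le_star hf x z
    have h3 : f x < (dist x z - f z) + c + η := by linarith
    have h4 : dist x z - f z ≤ star f x := le_ciSup (star_bdd hf x) z
    linarith
  refine ⟨y, ?_⟩
  have h2 := avg_le hf y
  have h3 : avg f x = (f x + star f x) / 2 := rfl
  linarith

theorem star_lip {f g : V → ℝ} (hf : IsDelta f) (hg : IsDelta g) [Nonempty V] {C : ℝ}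
    (h : ∀ x, |f x - g x| ≤ C) (x : V) : |star f x - star g x| ≤ C := by
  rw [abs_sub_le_iff]
  constructor
  · rw [sub_le_iff_le_add]
    apply ciSup_le
    intro y
    have h1 := (abs_sub_le_iff.mp (h y)).2
    have h2 := le_star hg x y
    linarith
  · rw [sub_le_iff_le_add]
    apply ciSup_le
    intro y
    have h1 := (abs_sub_le_iff.mp (h y)).1
    have h2 := le_star hf x y
    linarith

theorem avg_lip {f g : V → ℝ} (hf : IsDelta f) (hg : IsDelta g) [Nonempty V] {C : ℝ}
    (h : ∀ x, |f x - g x| ≤ C) (x : V) : |avg f x - avg g x| ≤ C := by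
  have h1 := abs_sub_le_iff.mp (star_lip hf hg h x)
  have h2 := abs_sub_le_iff.mp (h x)
  rw [abs_sub_le_iff]
  simp only [avg]
  constructor <;> linarith [h1.1, h1.2, h2.1, h2.2]

theorem iter_isDelta {f : V → ℝ} (hf : IsDelta f) (n : ℕ) : IsDelta (avg^[n] f) := by
  induction n with
  | zero => exact hf
  | succ n ih => rw [Function.iterate_succ_apply']; exact avg_isDelta ih

theorem iter_gap {f : V → ℝ} (hf : IsDelta f) [Nonempty V] {c : ℝ} (hc : HasGap f c) (n : ℕ) :
    HasGap (avg^[n] f) (c / 2 ^ n) := by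
  induction n with
  | zero => simpa using hc
  | succ n ih =>
    rw [Function.iterate_succ_apply']
    have := avg_gap (iter_isDelta hf n) ih
    rwa [div_div, ← pow_succ] at this

theorem iter_lip {f g : V → ℝ} (hf : IsDelta f) (hg : IsDelta g) [Nonempty V] {C : ℝ}
    (h : ∀ x, |f x - g x| ≤ C) (n : ℕ) (x : V) : |avg^[n] f x - avg^[n] g x| ≤ C := by
  induction n generalizing x with
  | zero => exact h x
  | succ n ih =>
    rw [Function.iterate_succ_apply', Function.iterate_succ_apply']
    exact avg_lip (iter_isDelta hf n) (iter_isDelta hg n) ih x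

theorem iter_antitone {f : V → ℝ} (hf : IsDelta f) [Nonempty V] (x : V) :
    Antitone fun n => avg^[n] f x := by
  apply antitone_nat_of_succ_le
  intro n
  rw [Function.iterate_succ_apply']
  exact avg_le (iter_isDelta hf n) x

/-- the limit of the iterates -/
noncomputable def lim (f : V → ℝ) (x : V) : ℝ := ⨅ n, avg^[n] f x

theorem iter_bddBelow {f : V → ℝ} (hf : IsDelta f) (x : V) :
    BddBelow (Set.range fun n => avg^[n] f x) := by
  refine ⟨0, ?_⟩
  rintro _ ⟨n, rfl⟩
  exact (iter_isDelta hf n).nonneg x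

theorem tendsto_lim {f : V → ℝ} (hf : IsDelta f) [Nonempty V] (x : V) :
    Tendsto (fun n => avg^[n] f x) atTop (𝓝 (lim f x)) :=
  tendsto_atTop_ciInf (iter_antitone hf x) (iter_bddBelow hf x)

theorem lim_le {f : V → ℝ} (hf : IsDelta f) (x : V) (n : ℕ) : lim f x ≤ avg^[n] f x :=
  ciInf_le (iter_bddBelow hf x) n

theorem lim_isDelta {f : V → ℝ} (hf : IsDelta f) [Nonempty V] : IsDelta (lim f) := by
  intro x y
  exact ge_of_tendsto' ((tendsto_lim hf x).add (tendsto_lim hf y))
    (fun n => iter_isDelta hf n x y)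

theorem lim_gap {f : V → ℝ} (hf : IsDelta f) [Nonempty V] {c : ℝ} (hc : HasGap f c) :
    HasGap (lim f) 0 := by
  intro x ε hε
  have ht : Tendsto (fun n : ℕ => c / 2 ^ n) atTop (𝓝 0) :=
    tendsto_const_nhds.div_atTop (tendsto_pow_atTop_atTop_of_one_lt (by norm_num))
  obtain ⟨n, hn⟩ := ((tendsto_order.mp ht).2 (ε / 2) (half_pos hε)).exists
  obtain ⟨y, hy⟩ := iter_gap hf hc n x (ε / 2) (half_pos hε)
  refine ⟨y, ?_⟩
  have h1 := lim_le hf x n
  have h2 := lim_le hf y n
  linarith

theorem lim_lip {f g : V → ℝ} (hf : IsDelta f) (hg : IsDelta g) [Nonempty V] {C : ℝ}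
    (h : ∀ x, |f x - g x| ≤ C) (x : V) : |lim f x - lim g x| ≤ C := by
  have ht := ((tendsto_lim hf x).sub (tendsto_lim hg x)).abs
  exact le_of_tendsto' ht (fun n => iter_lip hf hg h n x)

theorem lim_eq_self (f : TightSpan V) [Nonempty V] : lim f.1 = f.1 := by
  have hstar : star f.1 = f.1 := by
    funext x
    apply le_antisymm (star_le f.isDelta x)
    refine le_of_forall_pos_lt_add ?_
    intro ε hε
    obtain ⟨y, hy⟩ := f.exists_lt x hε
    have := le_ciSup (star_bdd f.isDelta x) y
    simp only [star]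
    linarith
  have havg : avg f.1 = f.1 := by
    funext x
    simp only [avg, hstar]
    ring
  have hiter : ∀ n, avg^[n] f.1 = f.1 := by
    intro n
    induction n with
    | zero => rfl
    | succ n ih => rw [Function.iterate_succ_apply', ih, havg]
  funext x
  simp only [lim, hiter]
  exact ciInf_const

/-- the convex combination of two extremal functions -/
noncomputable def comb (f g : TightSpan V) (s : ℝ) (x : V) : ℝ := (1 - s) * f x + s * g x

theorem comb_isDelta (f g : TightSpan V) {s : ℝ} (h0 : 0 ≤ s) (h1 : s ≤ 1) :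
    IsDelta (comb f g s) := by
  intro x y
  have hf := f.isDelta x y
  have hg := g.isDelta x y
  simp only [comb]
  nlinarith [mul_le_mul_of_nonneg_left hf (sub_nonneg.mpr h1), mul_le_mul_of_nonneg_left hg h0]

theorem comb_sub (f g : TightSpan V) (s t : ℝ) (x : V) :
    |comb f g s x - comb f g t x| ≤ |s - t| * dist f g := by
  have : comb f g s x - comb f g t x = -((s - t) * (f x - g x)) := by
    simp only [comb]; ring
  rw [this, abs_neg, abs_mul]
  exact mul_le_mul_of_nonneg_left (abs_le_dist f g x) (abs_nonneg _)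

theorem comb_gap (f g : TightSpan V) {s : ℝ} (h0 : 0 ≤ s) (h1 : s ≤ 1) :
    HasGap (comb f g s) (2 * dist f g) := by
  intro x ε hε
  obtain ⟨y, hy⟩ := f.exists_lt x hε
  refine ⟨y, ?_⟩
  have e : comb f g 0 = f.1 := by funext z; simp [comb]
  have a : ∀ z, comb f g s z ≤ f z + dist f g := by
    intro z
    have b := comb_sub f g s 0 z
    rw [e, sub_zero, abs_of_nonneg h0] at b
    have c := (abs_sub_le_iff.mp b).1
    have d : s * dist f g ≤ dist f g := by
      have := mul_le_mul_of_nonneg_right h1 (dist_nonneg' f g)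
      rwa [one_mul] at this
    linarith
  have a1 := a x
  have a2 := a y
  linarith

/-- the point of the tight span given by the retraction of `comb f g s` -/
noncomputable def path [Nonempty V] (f g : TightSpan V) (s : ℝ) (h0 : 0 ≤ s) (h1 : s ≤ 1) :
    TightSpan V :=
  ⟨lim (comb f g s), lim_isDelta (comb_isDelta f g h0 h1),
    lim_gap (comb_isDelta f g h0 h1) (comb_gap f g h0 h1)⟩

theorem path_dist [Nonempty V] (f g : TightSpan V) {s t : ℝ} (h0 : 0 ≤ s) (h1 : s ≤ 1)
    (h0' : 0 ≤ t) (h1' : t ≤ 1) :
    dist (path f g s h0 h1) (path f g t h0' h1') ≤ |s - t| * dist f g := by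
  apply dist_le' _ _ (mul_nonneg (abs_nonneg _) (dist_nonneg' _ _))
  intro x
  exact lim_lip (comb_isDelta f g h0 h1) (comb_isDelta f g h0' h1') (comb_sub f g s t) x

theorem path_zero [Nonempty V] (f g : TightSpan V) (h0 : (0 : ℝ) ≤ 0) (h1 : (0 : ℝ) ≤ 1) :
    path f g 0 h0 h1 = f := by
  have e : comb f g 0 = f.1 := by funext z; simp [comb]
  apply Subtype.ext
  change lim (comb f g 0) = f.1
  rw [e, lim_eq_self]

theorem path_one [Nonempty V] (f g : TightSpan V) (h0 : (0 : ℝ) ≤ 1) (h1 : (1 : ℝ) ≤ 1) :
    path f g 1 h0 h1 = g := by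
  have e : comb f g 1 = g.1 := by funext z; simp [comb]
  apply Subtype.ext
  change lim (comb f g 1) = g.1
  rw [e, lim_eq_self]

theorem isGeodesic [Nonempty V] : IsGeodesicSpace (TightSpan V) := by
  intro f g
  rcases (dist_nonneg' f g).eq_or_lt with hD | hD
  · have hfg : f = g := dist_eq_zero.mp hD.symm
    refine ⟨fun _ => f, rfl, hfg, ?_⟩
    intro s hs t ht
    rw [← hD] at hs ht
    have h1 : s = 0 := le_antisymm hs.2 hs.1
    have h2 : t = 0 := le_antisymm ht.2 ht.1
    simp [h1, h2]
  · set D := dist f g with hDdef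
    have key0 : ∀ s ∈ Set.Icc 0 D, 0 ≤ s / D := fun s hs => div_nonneg hs.1 hD.le
    have key1 : ∀ s ∈ Set.Icc 0 D, s / D ≤ 1 := fun s hs => (div_le_one hD).mpr hs.2
    classical
    let γ : ℝ → TightSpan V := fun s =>
      if h : s ∈ Set.Icc 0 D then path f g (s / D) (key0 s h) (key1 s h) else f
    have hγ : ∀ s (h : s ∈ Set.Icc 0 D), γ s = path f g (s / D) (key0 s h) (key1 s h) :=
      fun s h => dif_pos h
    have m0 : (0 : ℝ) ∈ Set.Icc 0 D := ⟨le_rfl, hD.le⟩
    have m1 : D ∈ Set.Icc 0 D := ⟨hD.le, le_rfl⟩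
    have g0 : γ 0 = f := by
      rw [hγ 0 m0]
      have : (0 : ℝ) / D = 0 := zero_div D
      simp only [this]
      exact path_zero f g _ _
    have g1 : γ D = g := by
      rw [hγ D m1]
      have : D / D = 1 := div_self hD.ne'
      simp only [this]
      exact path_one f g _ _
    have up : ∀ s (hs : s ∈ Set.Icc 0 D) t (ht : t ∈ Set.Icc 0 D), dist (γ s) (γ t) ≤ |s - t| := by
      intro s hs t ht
      rw [hγ s hs, hγ t ht]
      refine (path_dist f g _ _ _ _).trans ?_
      rw [← sub_div, abs_div, abs_of_pos hD, ← hDdef, div_mul_cancel₀ _ hD.ne']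
    have main : ∀ s (hs : s ∈ Set.Icc 0 D) t (ht : t ∈ Set.Icc 0 D), s ≤ t →
        dist (γ s) (γ t) = |s - t| := by
      intro s hs t ht hst
      apply le_antisymm (up s hs t ht)
      have u1 := up 0 m0 s hs
      have u2 := up t ht D m1
      rw [g0] at u1
      rw [g1] at u2
      have tri := dist_triangle4 f (γ s) (γ t) g
      rw [← hDdef] at tri
      rw [abs_of_nonpos (by linarith [hs.1])] at u1
      rw [abs_of_nonpos (by linarith [ht.2])] at u2
      rw [abs_of_nonpos (by linarith)]
      linarith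
    refine ⟨γ, g0, g1, ?_⟩
    intro s hs t ht
    rcases le_total s t with h | h
    · exact main s hs t ht h
    · rw [dist_comm, abs_sub_comm]
      exact main t ht s hs h

/-! ### Isometries -/

/-- the action of isometries of `V` on the tight span -/
instance : MulAction (V ≃ᵢ V) (TightSpan V) where
  smul e f := ⟨fun x => f (e⁻¹ x), by
    constructor
    · intro x y
      have := f.isDelta (e⁻¹ x) (e⁻¹ y)
      rwa [IsometryEquiv.dist_eq] at this
    · intro x ε hε
      obtain ⟨y, hy⟩ := f.2.2 (e⁻¹ x) ε hε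
      refine ⟨e y, ?_⟩
      have h1 : e⁻¹ (e y) = y := e.symm_apply_apply y
      have h2 : dist (e⁻¹ x) y = dist x (e y) := by
        rw [← h1, IsometryEquiv.dist_eq, h1]
      simp only [h1]
      rw [← h2]
      exact hy⟩
  one_smul f := by
    ext x
    rfl
  mul_smul e e' f := by
    ext x
    change f ((e * e')⁻¹ x) = f (e'⁻¹ (e⁻¹ x))
    rw [mul_inv_rev]
    rfl

theorem smul_apply (e : V ≃ᵢ V) (f : TightSpan V) (x : V) : (e • f) x = f (e⁻¹ x) := rfl

theorem smul_emb (e : V ≃ᵢ V) (v : V) : e • emb v = emb (e v) := by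
  ext x
  rw [smul_apply, emb_apply, emb_apply]
  have h1 : e (e⁻¹ x) = x := e.apply_symm_apply x
  rw [← e.dist_eq, h1]

instance : IsIsometricSMul (V ≃ᵢ V) (TightSpan V) where
  isometry_smul e := by
    apply Isometry.of_dist_eq
    intro f g
    rw [dist_def, dist_def]
    simp only [smul_apply]
    exact (e⁻¹).surjective.iSup_comp (g := fun x => |f x - g x|)

end TightSpan

/-- the four point inequality implies `0`-hyperbolicity -/
theorem hyperbolic_of_four_point {X : Type*} [MetricSpace X]
    (h4 : ∀ x y z w : X, dist x y + dist z w ≤ max (dist x z + dist y w) (dist x w + dist y z)) :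
    IsGromovHyperbolic X 0 := by
  intro o x y z
  rw [sub_zero]
  have h := h4 x y z o
  simp only [gromovProduct]
  rcases le_max_iff.mp h with h6 | h6
  · refine (min_le_left _ _).trans ?_
    linarith
  · refine (min_le_right _ _).trans ?_
    rw [dist_comm z y]
    linarith

end Pool.Agent.Helper89.IG
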