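import Pool.Agent.Helper89.IG.Defs

/-!
The Bass-Serre tree of `BS(2,3)`: its vertices are the reduced words in the letters `a ^ i t`
(`0 ≤ i < 3`, coded `(true, i)`) and `a ^ i t⁻¹` (`0 ≤ i < 2`, coded `(false, i)`).
-/

namespace Pool.Agent.Helper89.IG

/-- length of the longest common prefix -/
def lcp {α : Type*} [DecidableEq α] : List α → List α → ℕ
  | [], _ => 0
  | _ :: _, [] => 0
  | a :: x, b :: y => if a = b then lcp x y + 1 else 0

section lcp

variable {α : Type*} [DecidableEq α]

@[simp] theorem lcp_nil_left (y : List α) : lcp [] y = 0 := rfl

@[simp] theorem lcp_nil_right (x : List α) : lcp x [] = 0 := by cases x <;> rfl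

theorem lcp_cons (a b : α) (x y : List α) :
    lcp (a :: x) (b :: y) = if a = b then lcp x y + 1 else 0 := rfl

@[simp] theorem lcp_cons_self (a : α) (x y : List α) : lcp (a :: x) (a :: y) = lcp x y + 1 := by
  rw [lcp_cons, if_pos rfl]

theorem lcp_cons_ne {a b : α} (h : a ≠ b) (x y : List α) : lcp (a :: x) (b :: y) = 0 := by
  rw [lcp_cons, if_neg h]

theorem lcp_comm (x y : List α) : lcp x y = lcp y x := by
  induction x generalizing y with
  | nil => simp
  | cons a x ih =>
    cases y with
    | nil => rfl
    | cons b y =>
      rw [lcp_cons, lcp_cons, ih]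
      by_cases h : a = b
      · rw [if_pos h, if_pos h.symm]
      · rw [if_neg h, if_neg (Ne.symm h)]

@[simp] theorem lcp_self (x : List α) : lcp x x = x.length := by
  induction x with
  | nil => rfl
  | cons a x ih => rw [lcp_cons_self, ih, List.length_cons]

theorem lcp_le_left (x y : List α) : lcp x y ≤ x.length := by
  induction x generalizing y with
  | nil => simp
  | cons a x ih =>
    cases y with
    | nil => simp
    | cons b y =>
      rw [lcp_cons, List.length_cons]
      have := ih y
      split <;> omega

theorem lcp_le_right (x y : List α) : lcp x y ≤ y.length := by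
  rw [lcp_comm]; exact lcp_le_left y x

theorem eq_of_lcp (x y : List α) (h : x.length + y.length = 2 * lcp x y) : x = y := by
  induction x generalizing y with
  | nil =>
    simp at h
    exact h.symm
  | cons a x ih =>
    cases y with
    | nil => simp at h
    | cons b y =>
      rw [lcp_cons, List.length_cons, List.length_cons] at h
      by_cases hab : a = b
      · rw [if_pos hab] at h
        rw [hab, ih y (by omega)]
      · rw [if_neg hab] at h
        omega

theorem lcp_ultra (x y z : List α) : min (lcp x z) (lcp z y) ≤ lcp x y := by
  induction x generalizing y z with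
  | nil => simp
  | cons a x ih =>
    cases z with
    | nil => simp
    | cons c z =>
      cases y with
      | nil => simp
      | cons b y =>
        rw [lcp_cons, lcp_cons, lcp_cons]
        have := ih y z
        by_cases h1 : a = c
        · by_cases h2 : c = b
          · rw [if_pos h1, if_pos h2, if_pos (h1.trans h2)]
            omega
          · rw [if_neg h2]; simp
        · rw [if_neg h1]; simp

theorem lcp_four (x y z w : List α) :
    min (lcp x z + lcp y w) (lcp x w + lcp y z) ≤ lcp x y + lcp z w := by
  have h1 := lcp_ultra x y z
  have h2 := lcp_ultra x y w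
  have h3 := lcp_ultra x z y
  have h4 := lcp_ultra x z w
  have h5 := lcp_ultra x w y
  have h6 := lcp_ultra x w z
  have h7 := lcp_ultra y z x
  have h8 := lcp_ultra y z w
  have h9 := lcp_ultra y w x
  have h10 := lcp_ultra y w z
  have h11 := lcp_ultra z w x
  have h12 := lcp_ultra z w y
  simp only [lcp_comm y x, lcp_comm z x, lcp_comm z y, lcp_comm w y, lcp_comm w z] at *
  omega

end lcp

/-- A letter `a ^ i t` is `(true, i)` and a letter `a ^ i t⁻¹` is `(false, i)`. -/
abbrev Letter : Type := Bool × ℤ

/-- reduced letters -/
def GoodLetter (p : Letter) : Prop := 0 ≤ p.2 ∧ p.2 < (if p.1 then 3 else 2)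

/-- `p` may be followed by `q` -/
def Follow (p q : Letter) : Prop := p.1 = q.1 ∨ q.2 ≠ 0

/-- reduced words -/
def Good : List Letter → Prop
  | [] => True
  | [p] => GoodLetter p
  | p :: q :: w => GoodLetter p ∧ Follow p q ∧ Good (q :: w)

/-- the head of the list is a reduced letter that can follow `b` -/
def HeadOK (b : Bool) : List Letter → Prop
  | [] => True
  | q :: _ => b = q.1 ∨ q.2 ≠ 0

theorem good_cons (p : Letter) (w : List Letter) :
    Good (p :: w) ↔ GoodLetter p ∧ HeadOK p.1 w ∧ Good w := by
  cases w with
  | nil => simp [Good, HeadOK]
  | cons q w => simp [Good, HeadOK, Follow]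

/-- the action of `a ^ n` on words -/
def act : ℤ → List Letter → List Letter
  | _, [] => []
  | n, (true, i) :: w => (true, (i + n) % 3) :: act (2 * ((i + n) / 3)) w
  | n, (false, i) :: w => (false, (i + n) % 2) :: act (3 * ((i + n) / 2)) w

@[simp] theorem act_nil (n : ℤ) : act n [] = [] := by simp [act]

theorem act_true (n i : ℤ) (w : List Letter) :
    act n ((true, i) :: w) = (true, (i + n) % 3) :: act (2 * ((i + n) / 3)) w := by
  rw [act]

theorem act_false (n i : ℤ) (w : List Letter) :
    act n ((false, i) :: w) = (false, (i + n) % 2) :: act (3 * ((i + n) / 2)) w := by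
  rw [act]

theorem act_headOK_true (n : ℤ) (w : List Letter) (hw : Good w) (h : HeadOK true w) :
    HeadOK true (act (2 * n) w) := by
  cases w with
  | nil => simp [HeadOK]
  | cons q w =>
    obtain ⟨b, i⟩ := q
    rw [good_cons] at hw
    cases b with
    | true => rw [act_true]; simp [HeadOK]
    | false =>
      rw [act_false]
      have h1 := hw.1
      simp only [HeadOK, GoodLetter] at h h1 ⊢
      right
      rcases h with h | h
      · exact absurd h (by decide)
      · simp only [Bool.false_eq_true, if_false] at h1
        omega

theorem act_headOK_false (n : ℤ) (w : List Letter) (hw : Good w) (h : HeadOK false w) :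
    HeadOK false (act (3 * n) w) := by
  cases w with
  | nil => simp [HeadOK]
  | cons q w =>
    obtain ⟨b, i⟩ := q
    rw [good_cons] at hw
    cases b with
    | false => rw [act_false]; simp [HeadOK]
    | true =>
      rw [act_true]
      have h1 := hw.1
      simp only [HeadOK, GoodLetter] at h h1 ⊢
      right
      rcases h with h | h
      · exact absurd h (by decide)
      · simp only [if_true] at h1
        omega

theorem act_good (n : ℤ) (w : List Letter) (hw : Good w) : Good (act n w) := by
  induction w generalizing n with
  | nil => simpa using hw
  | cons q w ih =>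
    obtain ⟨b, i⟩ := q
    rw [good_cons] at hw
    cases b with
    | true =>
      rw [act_true, good_cons]
      refine ⟨?_, ?_, ih _ hw.2.2⟩
      · simp only [GoodLetter, if_true]
        omega
      · exact act_headOK_true _ w hw.2.2 hw.2.1
    | false =>
      rw [act_false, good_cons]
      refine ⟨?_, ?_, ih _ hw.2.2⟩
      · simp only [GoodLetter, Bool.false_eq_true, if_false]
        omega
      · exact act_headOK_false _ w hw.2.2 hw.2.1

theorem act_zero (w : List Letter) (hw : Good w) : act 0 w = w := by
  induction w with
  | nil => simp
  | cons q w ih =>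
    obtain ⟨b, i⟩ := q
    rw [good_cons] at hw
    have h1 := hw.1
    cases b with
    | true =>
      simp only [GoodLetter, if_true] at h1
      have e1 : (i + 0) % 3 = i := by omega
      have e2 : 2 * ((i + 0) / 3) = 0 := by omega
      rw [act_true, e1, e2, ih hw.2.2]
    | false =>
      simp only [GoodLetter, Bool.false_eq_true, if_false] at h1
      have e1 : (i + 0) % 2 = i := by omega
      have e2 : 3 * ((i + 0) / 2) = 0 := by omega
      rw [act_false, e1, e2, ih hw.2.2]

theorem act_act (m n : ℤ) (w : List Letter) : act m (act n w) = act (m + n) w := by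
  induction w generalizing m n with
  | nil => simp
  | cons q w ih =>
    obtain ⟨b, i⟩ := q
    cases b with
    | true =>
      rw [act_true, act_true, act_true, ih]
      have e1 : ((i + n) % 3 + m) % 3 = (i + (m + n)) % 3 := by omega
      have e2 : 2 * (((i + n) % 3 + m) / 3) + 2 * ((i + n) / 3) = 2 * ((i + (m + n)) / 3) := by
        omega
      rw [e1, e2]
    | false =>
      rw [act_false, act_false, act_false, ih]
      have e1 : ((i + n) % 2 + m) % 2 = (i + (m + n)) % 2 := by omega
      have e2 : 3 * (((i + n) % 2 + m) / 2) + 3 * ((i + n) / 2) = 3 * ((i + (m + n)) / 2) := by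
        omega
      rw [e1, e2]

theorem act_length (n : ℤ) (w : List Letter) : (act n w).length = w.length := by
  induction w generalizing n with
  | nil => simp
  | cons q w ih =>
    obtain ⟨b, i⟩ := q
    cases b with
    | true => rw [act_true, List.length_cons, List.length_cons, ih]
    | false => rw [act_false, List.length_cons, List.length_cons, ih]

theorem act_lcp (n : ℤ) (x y : List Letter) (hx : Good x) (hy : Good y) :
    lcp (act n x) (act n y) = lcp x y := by
  induction x generalizing n y with
  | nil => simp
  | cons p x ih =>
    cases y with
    | nil => simp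
    | cons q y =>
      obtain ⟨b, i⟩ := p
      obtain ⟨c, j⟩ := q
      rw [good_cons] at hx hy
      have h1 := hx.1
      have h2 := hy.1
      cases b with
      | true =>
        cases c with
        | true =>
          simp only [GoodLetter, if_true] at h1 h2
          rw [act_true, act_true]
          by_cases hij : i = j
          · subst hij
            rw [lcp_cons_self, lcp_cons_self, ih _ _ hx.2.2 hy.2.2]
          · rw [lcp_cons_ne, lcp_cons_ne]
            · simpa using hij
            · simp only [ne_eq, Prod.mk.injEq, true_and]
              omega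
        | false =>
          rw [act_true, act_false, lcp_cons_ne (by simp), lcp_cons_ne (by simp)]
      | false =>
        cases c with
        | false =>
          simp only [GoodLetter, Bool.false_eq_true, if_false] at h1 h2
          rw [act_false, act_false]
          by_cases hij : i = j
          · subst hij
            rw [lcp_cons_self, lcp_cons_self, ih _ _ hx.2.2 hy.2.2]
          · rw [lcp_cons_ne, lcp_cons_ne]
            · simpa using hij
            · simp only [ne_eq, Prod.mk.injEq, true_and]
              omega
        | true =>
          rw [act_true, act_false, lcp_cons_ne (by simp), lcp_cons_ne (by simp)]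

/-- left multiplication by `t` (`b = true`) or `t⁻¹` (`b = false`) on reduced words -/
def sh (b : Bool) (w : List Letter) : List Letter :=
  match w with
  | [] => [(b, 0)]
  | q :: w' => if q = (!b, 0) then w' else (b, 0) :: q :: w'

@[simp] theorem sh_nil (b : Bool) : sh b [] = [(b, 0)] := rfl

theorem sh_cons_eq (b : Bool) (w : List Letter) : sh b ((!b, 0) :: w) = w := by simp [sh]

theorem sh_cons_ne (b : Bool) {q : Letter} (h : q ≠ (!b, 0)) (w : List Letter) :
    sh b (q :: w) = (b, 0) :: q :: w := by simp [sh, h]

theorem goodLetter_zero (b : Bool) : GoodLetter (b, 0) := by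
  cases b <;> simp [GoodLetter]

theorem sh_good (b : Bool) (w : List Letter) (hw : Good w) : Good (sh b w) := by
  cases w with
  | nil => rw [sh_nil, good_cons]; exact ⟨goodLetter_zero b, trivial, trivial⟩
  | cons q w =>
    by_cases h : q = (!b, 0)
    · subst h
      rw [sh_cons_eq]
      rw [good_cons] at hw
      exact hw.2.2
    · rw [sh_cons_ne b h, good_cons]
      refine ⟨goodLetter_zero b, ?_, hw⟩
      obtain ⟨c, i⟩ := q
      simp only [HeadOK]
      by_cases hbc : b = c
      · left; exact hbc
      · right
        intro hi
        apply h
        rw [hi]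
        cases b <;> cases c <;> simp_all

theorem sh_sh (b : Bool) (w : List Letter) (hw : Good w) : sh (!b) (sh b w) = w := by
  cases w with
  | nil =>
    rw [sh_nil]
    simp [sh]
  | cons q w =>
    by_cases h : q = (!b, 0)
    · subst h
      rw [sh_cons_eq]
      rw [good_cons] at hw
      cases w with
      | nil => rfl
      | cons r w =>
        rw [sh_cons_ne]
        intro hr
        subst hr
        have := hw.2.1
        simp [HeadOK] at this
    · rw [sh_cons_ne b h]
      simp [sh]

theorem dist_aux (b : Bool) (x y : List Letter) (hx : Good x) (hy : Good y) :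
    (sh b x).length + (sh b y).length + 2 * lcp x y =
      x.length + y.length + 2 * lcp (sh b x) (sh b y) := by
  cases x with
  | nil =>
    cases y with
    | nil => simp
    | cons q y =>
      by_cases h : q = (!b, 0)
      · subst h
        rw [sh_cons_eq, sh_nil]
        rw [good_cons] at hy
        cases y with
        | nil => simp
        | cons r y =>
          have : (b, (0 : ℤ)) ≠ r := by
            intro hr
            subst hr
            have := hy.2.1
            simp [HeadOK] at this
          rw [lcp_cons_ne this]
          simp
          ring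
      · rw [sh_cons_ne b h, sh_nil]
        simp
        ring
  | cons p x =>
    by_cases hp : p = (!b, 0)
    · subst hp
      rw [sh_cons_eq]
      cases y with
      | nil =>
        rw [sh_nil]
        rw [good_cons] at hx
        cases x with
        | nil => simp
        | cons r x =>
          have : r ≠ (b, (0 : ℤ)) := by
            intro hr
            subst hr
            have := hx.2.1
            simp [HeadOK] at this
          rw [lcp_cons_ne this]
          simp
      | cons q y =>
        by_cases hq : q = (!b, 0)
        · subst hq
          rw [sh_cons_eq, lcp_cons_self]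
          simp
          ring
        · rw [sh_cons_ne b hq, lcp_cons_ne (Ne.symm hq)]
          rw [good_cons] at hx
          cases x with
          | nil => simp; ring
          | cons r x =>
            have : r ≠ (b, (0 : ℤ)) := by
              intro hr
              subst hr
              have := hx.2.1
              simp [HeadOK] at this
            rw [lcp_cons_ne this]
            simp
            ring
    · rw [sh_cons_ne b hp]
      cases y with
      | nil => simp
      | cons q y =>
        by_cases hq : q = (!b, 0)
        · subst hq
          rw [sh_cons_eq, lcp_cons_ne hp]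
          rw [good_cons] at hy
          cases y with
          | nil => simp
          | cons r y =>
            have : (b, (0 : ℤ)) ≠ r := by
              intro hr
              subst hr
              have := hy.2.1
              simp [HeadOK] at this
            rw [lcp_cons_ne this]
            simp
            ring
        · rw [sh_cons_ne b hq, lcp_cons_self]
          simp
          ring

/-- the relation `t a ^ 2 = a ^ 3 t` -/
theorem sh_act (w : List Letter) (hw : Good w) : sh true (act 2 w) = act 3 (sh true w) := by
  cases w with
  | nil => simp [act_true]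
  | cons q w =>
    obtain ⟨b, i⟩ := q
    cases b with
    | true =>
      have e1 : ((0 : ℤ) + 3) % 3 = 0 := by norm_num
      have e2 : 2 * (((0 : ℤ) + 3) / 3) = 2 := by norm_num
      rw [sh_cons_ne true (by simp), act_true 3 0, e1, e2, act_true, sh_cons_ne true (by simp)]
    | false =>
      rw [good_cons] at hw
      have h1 := hw.1
      simp only [GoodLetter, Bool.false_eq_true, if_false] at h1
      have h2 : i = 0 ∨ i = 1 := by omega
      rcases h2 with rfl | rfl
      · have e : sh true ((false, 0) :: w) = w := sh_cons_eq true w
        have e1 : ((0 : ℤ) + 2) % 2 = 0 := by norm_num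
        have e2 : 3 * (((0 : ℤ) + 2) / 2) = 3 := by norm_num
        rw [e, act_false, e1, e2]
        exact sh_cons_eq true _
      · have e1 : ((1 : ℤ) + 2) % 2 = 1 := by norm_num
        have e2 : 3 * (((1 : ℤ) + 2) / 2) = 3 := by norm_num
        have e3 : ((0 : ℤ) + 3) % 3 = 0 := by norm_num
        have e4 : 2 * (((0 : ℤ) + 3) / 3) = 2 := by norm_num
        rw [sh_cons_ne true (by simp), act_true 3 0, e3, e4, act_false, e1, e2,
          sh_cons_ne true (by simp)]

/-- The vertices of the tree: reduced words. -/
def VTree : Type := {w : List Letter // Good w}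

namespace VTree

/-- the distance as an integer -/
def idist (x y : VTree) : ℤ := x.1.length + y.1.length - 2 * lcp x.1 y.1

theorem idist_comm (x y : VTree) : idist x y = idist y x := by
  simp only [idist, lcp_comm y.1 x.1]
  ring

theorem idist_self (x : VTree) : idist x x = 0 := by
  simp only [idist, lcp_self]
  ring

theorem idist_triangle (x y z : VTree) : idist x z ≤ idist x y + idist y z := by
  have h1 := lcp_ultra x.1 z.1 y.1
  have h2 := lcp_le_right x.1 y.1
  have h3 := lcp_le_left y.1 z.1
  simp only [idist]
  omega

theorem eq_of_idist {x y : VTree} (h : idist x y = 0) : x = y := by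
  apply Subtype.ext
  apply eq_of_lcp
  simp only [idist] at h
  omega

noncomputable instance : MetricSpace VTree where
  dist x y := (idist x y : ℝ)
  dist_self x := by rw [idist_self]; simp
  dist_comm x y := by rw [idist_comm]
  dist_triangle x y z := by
    have := idist_triangle x y z
    exact_mod_cast this
  eq_of_dist_eq_zero := by
    intro x y h
    apply eq_of_idist
    exact_mod_cast h

theorem dist_def (x y : VTree) : dist x y = (idist x y : ℝ) := rfl

theorem four_point (x y z w : VTree) :
    dist x y + dist z w ≤ max (dist x z + dist y w) (dist x w + dist y z) := by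
  simp only [dist_def]
  have h := lcp_four x.1 y.1 z.1 w.1
  have : idist x y + idist z w ≤ max (idist x z + idist y w) (idist x w + idist y z) := by
    simp only [idist]
    omega
  exact_mod_cast this

instance : Nonempty VTree := ⟨⟨[], trivial⟩⟩

/-- the base vertex -/
def base : VTree := ⟨[], trivial⟩

/-- `a ^ n` as a permutation of the vertices -/
def aEquiv : VTree ≃ VTree where
  toFun x := ⟨act 1 x.1, act_good 1 x.1 x.2⟩
  invFun x := ⟨act (-1) x.1, act_good (-1) x.1 x.2⟩
  left_inv x := by
    apply Subtype.ext
    change act (-1) (act 1 x.1) = x.1
    rw [act_act]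
    exact act_zero x.1 x.2
  right_inv x := by
    apply Subtype.ext
    change act 1 (act (-1) x.1) = x.1
    rw [act_act]
    exact act_zero x.1 x.2

/-- `t` as a permutation of the vertices -/
def tEquiv : VTree ≃ VTree where
  toFun x := ⟨sh true x.1, sh_good true x.1 x.2⟩
  invFun x := ⟨sh false x.1, sh_good false x.1 x.2⟩
  left_inv x := by
    apply Subtype.ext
    exact sh_sh true x.1 x.2
  right_inv x := by
    apply Subtype.ext
    exact sh_sh false x.1 x.2

/-- the isometry `a` of the tree -/
def aIso : VTree ≃ᵢ VTree := ⟨aEquiv, by
  apply Isometry.of_dist_eq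
  intro x y
  rw [dist_def, dist_def]
  congr 1
  simp only [idist]
  change ((act 1 x.1).length : ℤ) + (act 1 y.1).length - 2 * lcp (act 1 x.1) (act 1 y.1) = _
  rw [act_length, act_length, act_lcp 1 x.1 y.1 x.2 y.2]⟩

/-- the isometry `t` of the tree -/
def tIso : VTree ≃ᵢ VTree := ⟨tEquiv, by
  apply Isometry.of_dist_eq
  intro x y
  rw [dist_def, dist_def]
  congr 1
  simp only [idist]
  change ((sh true x.1).length : ℤ) + (sh true y.1).length - 2 * lcp (sh true x.1) (sh true y.1) = _
  have := dist_aux true x.1 y.1 x.2 y.2
  omega⟩

theorem aIso_apply (x : VTree) : (aIso x).1 = act 1 x.1 := rfl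

theorem tIso_apply (x : VTree) : (tIso x).1 = sh true x.1 := rfl

theorem tIso_inv_apply (x : VTree) : (tIso⁻¹ x).1 = sh false x.1 := rfl

theorem aIso_pow_apply (n : ℕ) (x : VTree) : ((aIso ^ n) x).1 = act n x.1 := by
  induction n with
  | zero => exact (act_zero x.1 x.2).symm
  | succ n ih =>
    rw [pow_succ']
    change (aIso ((aIso ^ n) x)).1 = _
    rw [aIso_apply, ih, act_act]
    congr 1
    push_cast
    ring

theorem iso_rel : tIso * aIso ^ 2 = aIso ^ 3 * tIso := by
  ext1 x
  apply Subtype.ext
  change (tIso ((aIso ^ 2) x)).1 = ((aIso ^ 3) (tIso x)).1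
  rw [tIso_apply, aIso_pow_apply, aIso_pow_apply, tIso_apply]
  exact sh_act x.1 x.2

theorem aIso_base : aIso base = base := rfl

theorem tIso_pow_base (n : ℕ) : ((tIso ^ n) base).1 = List.replicate n (true, 0) := by
  induction n with
  | zero => rfl
  | succ n ih =>
    rw [pow_succ']
    change (tIso ((tIso ^ n) base)).1 = _
    rw [tIso_apply, ih]
    cases n with
    | zero => rfl
    | succ n =>
      rw [List.replicate_succ, sh_cons_ne true (by simp)]
      rfl

theorem dist_base_pow (n : ℕ) : dist base ((tIso ^ n) base) = n := by
  rw [dist_def]
  simp only [idist, tIso_pow_base, List.length_replicate]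
  change (((([] : List Letter).length : ℤ) + n - 2 * lcp ([] : List Letter) _ : ℤ) : ℝ) = n
  simp

theorem dist_zpow_base (m n : ℤ) : dist ((tIso ^ m) base) ((tIso ^ n) base) = |(m : ℝ) - n| := by
  wlog h : m ≤ n generalizing m n
  · rw [dist_comm, this n m (le_of_not_ge h), abs_sub_comm]
  obtain ⟨k, hk⟩ := Int.eq_ofNat_of_zero_le (sub_nonneg.mpr h)
  have e : n = m + k := by omega
  have e2 : (tIso ^ n) base = (tIso ^ m) ((tIso ^ k) base) := by
    rw [e, zpow_add, zpow_natCast]
    rfl
  rw [e2, IsometryEquiv.dist_eq, dist_base_pow, e]
  push_cast
  rw [abs_sub_comm]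
  simp

end VTree

end Pool.Agent.Helper89.IG
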