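import Pool.Agent.Helper89.IG.Alg
import Pool.Agent.Helper89.IG.TightSpan
import Pool.Agent.Helper89.IG.Tree

/-!
`BS(2,3)` acts on the tight span of its tree with an action of general type.
-/

open Filter Topology

namespace Pool.Agent.Helper89.IG

section Boundary

variable {X : Type*} [MetricSpace X]

theorem gromovProduct_comm (x y o : X) : gromovProduct x y o = gromovProduct y x o := by
  simp only [gromovProduct, dist_comm x y]
  ring

theorem gromovProduct_nonneg (x y o : X) : 0 ≤ gromovProduct x y o := by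
  have := dist_triangle_right x y o
  simp only [gromovProduct]
  linarith

/-- in a hyperbolic space, equivalence of sequences is an equivalence relation -/
theorem boundaryRel_equivalence {δ : ℝ} (hδ : IsGromovHyperbolic X δ) :
    Equivalence (BoundaryRel X) where
  refl x o := (x.2 o).comp tendsto_atTop_diagonal
  symm := by
    intro x y h o
    simpa only [gromovProduct_comm] using h o
  trans := by
    intro x y z hxy hyz o
    rw [tendsto_atTop]
    intro C
    filter_upwards [(tendsto_atTop.mp (hxy o)) (C + δ), (tendsto_atTop.mp (hyz o)) (C + δ)]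
      with n h1 h2
    have h3 := hδ o (x.1 n) (z.1 n) (y.1 n)
    have h4 := le_min h1 h2
    linarith

theorem rel_of_mk_eq {δ : ℝ} (hδ : IsGromovHyperbolic X δ)
    {x y : {x : ℕ → X // ConvergesToInfinity x}}
    (h : Quot.mk (BoundaryRel X) x = Quot.mk (BoundaryRel X) y) : BoundaryRel X x y := by
  rw [Quot.eq, (boundaryRel_equivalence hδ).eqvGen_eq] at h
  exact h

/-- Key lemma: in a `0`-hyperbolic space, if `d(x,go) = d(x,g⁻¹o) = d(x,o) + 1` and `d(o,go) = 1`
then `(x|gx)_o ≤ 0`. -/
theorem key {G : Type*} [Group G] [MulAction G X] [IsIsometricSMul G X]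
    (h4 : ∀ x y z w : X, dist x y + dist z w ≤ max (dist x z + dist y w) (dist x w + dist y z))
    (g : G) (o x : X) (h1 : dist (g • o) o = 1)
    (h : 0 < gromovProduct (g • x) x o) :
    0 < gromovProduct x (g • o) o ∨ 0 < gromovProduct x (g⁻¹ • o) o := by
  by_contra hcon
  push Not at hcon
  obtain ⟨ha, hb⟩ := hcon
  have e1 : dist (g⁻¹ • o) o = 1 := by
    rw [← dist_smul g, smul_inv_smul, dist_comm, h1]
  have e2 : dist (g • x) o = dist x (g⁻¹ • o) := by
    rw [← dist_smul g⁻¹, inv_smul_smul]
  have e3 : dist (g • x) (g • o) = dist x o := dist_smul g x o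
  simp only [gromovProduct] at h ha hb
  rw [h1] at ha
  rw [e1] at hb
  rw [e2] at h
  -- four points: `x, go` and `gx, o`
  have h5 := h4 x (g • o) (g • x) o
  rw [h1, e2] at h5
  rw [dist_comm (g • o) (g • x), e3] at h5
  rw [dist_comm (g • x) x] at h
  have t1 := dist_triangle x o (g • o)
  have t2 := dist_triangle x o (g⁻¹ • o)
  rw [dist_comm o, h1] at t1
  rw [dist_comm o, e1] at t2
  rcases le_max_iff.mp h5 with h6 | h6
  · linarith
  · linarith

end Boundary

open TightSpan VTree

/-- the homomorphism from `BS(2,3)` to the isometry group of the tree -/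
noncomputable def bsHom : BS23 →* (VTree ≃ᵢ VTree) :=
  PresentedGroup.toGroup (f := fun b : Bool => if b then tIso else aIso) (by
    intro r hr
    rw [Set.mem_singleton_iff] at hr
    subst hr
    simp only [map_mul, map_pow, map_inv, FreeGroup.lift_apply_of, if_true, Bool.false_eq_true,
      if_false]
    rw [iso_rel]
    group)

theorem bsHom_a : bsHom bsa = aIso := by
  simp [bsHom, bsa]

theorem bsHom_t : bsHom bst = tIso := by
  simp [bsHom, bst]

noncomputable instance bsAction : MulAction BS23 (TightSpan VTree) :=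
  MulAction.compHom (TightSpan VTree) bsHom

theorem bs_smul (g : BS23) (f : TightSpan VTree) : g • f = bsHom g • f := rfl

instance : IsIsometricSMul BS23 (TightSpan VTree) where
  isometry_smul g := isometry_smul (TightSpan VTree) (bsHom g)

theorem four_point_X (x y z w : TightSpan VTree) :
    dist x y + dist z w ≤ max (dist x z + dist y w) (dist x w + dist y z) :=
  TightSpan.four_point VTree.four_point x y z w

/-- the base point -/
noncomputable def oo : TightSpan VTree := emb base

theorem bs_smul_oo (g : BS23) : g • oo = emb (bsHom g base) := by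
  rw [bs_smul, oo, smul_emb]

theorem a_smul_oo : bsa • oo = oo := by
  rw [bs_smul_oo, bsHom_a, aIso_base]
  rfl

/-- the second loxodromic element `a t a⁻¹` -/
noncomputable def bsh : BS23 := bsa * bst * bsa⁻¹

theorem dist_t (m n : ℤ) : dist (bst ^ m • oo) (bst ^ n • oo) = |(m : ℝ) - n| := by
  rw [bs_smul_oo, bs_smul_oo, dist_emb, map_zpow, map_zpow, bsHom_t, dist_zpow_base]

theorem bsh_zpow_smul (m : ℤ) : bsh ^ m • oo = bsa • (bst ^ m • oo) := by
  have h : bsa⁻¹ • oo = oo := by rw [inv_smul_eq_iff, a_smul_oo]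
  rw [bsh, conj_zpow, mul_smul, mul_smul, h]

theorem dist_h (m n : ℤ) : dist (bsh ^ m • oo) (bsh ^ n • oo) = |(m : ℝ) - n| := by
  rw [bsh_zpow_smul, bsh_zpow_smul, dist_smul, dist_t]

theorem loxodromic_of_dist (g : BS23) (h : ∀ m n : ℤ,
    dist (g ^ m • oo) (g ^ n • oo) = |(m : ℝ) - n|) : IsLoxodromic (TightSpan VTree) g := by
  refine ⟨oo, 1, 0, le_rfl, le_rfl, ?_⟩
  intro m n
  rw [h]
  constructor <;> simp

/-- Gromov products of the first letters of reduced words -/
theorem gromov_emb (v w : VTree) :
    gromovProduct (emb v) (emb w) oo = lcp v.1 w.1 := by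
  have h1 : ∀ v : VTree, dist v base = v.1.length := by
    intro v
    rw [VTree.dist_def]
    simp [idist, base]
  rw [gromovProduct, oo, dist_emb, dist_emb, dist_emb, h1, h1, VTree.dist_def]
  simp only [idist]
  push_cast
  ring

theorem pt1 : ((bsHom bst) base).1 = [(true, 0)] := by
  rw [bsHom_t, tIso_apply]; rfl

theorem pt2 : ((bsHom bst⁻¹) base).1 = [(false, 0)] := by
  rw [map_inv, bsHom_t, tIso_inv_apply]; rfl

theorem pt3 : ((bsHom bsh) base).1 = [(true, 1)] := by
  have h : (aIso⁻¹ : VTree ≃ᵢ VTree) base = base := rfl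
  have : bsHom bsh base = aIso (tIso ((aIso⁻¹ : VTree ≃ᵢ VTree) base)) := by
    rw [bsh, map_mul, map_mul, map_inv, bsHom_a, bsHom_t]
    rfl
  rw [this, h, aIso_apply, tIso_apply]
  change act 1 (sh true []) = _
  rw [sh_nil, act_true, act_nil]
  norm_num

theorem pt4 : ((bsHom bsh⁻¹) base).1 = [(false, 1)] := by
  have h : (aIso⁻¹ : VTree ≃ᵢ VTree) base = base := rfl
  have : bsHom bsh⁻¹ base = aIso ((tIso⁻¹ : VTree ≃ᵢ VTree) ((aIso⁻¹ : VTree ≃ᵢ VTree) base)) := by
    have e : bsh⁻¹ = bsa * bst⁻¹ * bsa⁻¹ := by rw [bsh]; group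
    rw [e, map_mul, map_mul, map_inv, map_inv, bsHom_a, bsHom_t]
    rfl
  rw [this, h, aIso_apply, tIso_inv_apply]
  change act 1 (sh false []) = _
  rw [sh_nil, act_false, act_nil]
  norm_num

theorem prod_zero (x : TightSpan VTree) (v w : VTree) (hvw : lcp v.1 w.1 = 0)
    (h1 : 0 < gromovProduct x (emb v) oo) (h2 : 0 < gromovProduct x (emb w) oo) : False := by
  have h := hyperbolic_of_four_point four_point_X oo (emb v) (emb w) x
  rw [gromov_emb, hvw, gromovProduct_comm (emb v) x, sub_zero] at h
  have := lt_min h1 h2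
  push_cast at h
  linarith

theorem disjoint_fixed :
    Disjoint (boundaryFixedPoints (TightSpan VTree) bst)
      (boundaryFixedPoints (TightSpan VTree) bsh) := by
  rw [Set.disjoint_left]
  intro ξ h1 h2
  induction ξ using Quot.ind with
  | mk x =>
    have hh := hyperbolic_of_four_point four_point_X
    have r1 := rel_of_mk_eq hh h1 oo
    have r2 := rel_of_mk_eq hh h2 oo
    obtain ⟨n, hn1, hn2⟩ := ((tendsto_atTop.mp r1 1).and (tendsto_atTop.mp r2 1)).exists
    have d1 : dist (bst • oo) oo = 1 := by
      have := dist_t 1 0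
      simpa using this
    have d2 : dist (bsh • oo) oo = 1 := by
      have := dist_h 1 0
      simpa using this
    have k1 := key four_point_X bst oo (x.1 n) d1 (lt_of_lt_of_le one_pos hn1)
    have k2 := key four_point_X bsh oo (x.1 n) d2 (lt_of_lt_of_le one_pos hn2)
    rw [bs_smul_oo, bs_smul_oo] at k1 k2
    rcases k1 with k1 | k1 <;> rcases k2 with k2 | k2
    · exact prod_zero _ _ _ (by rw [pt1, pt3]; decide) k1 k2
    · exact prod_zero _ _ _ (by rw [pt1, pt4]; decide) k1 k2
    · exact prod_zero _ _ _ (by rw [pt2, pt3]; decide) k1 k2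
    · exact prod_zero _ _ _ (by rw [pt2, pt4]; decide) k1 k2

theorem bs_generalType : IsGeneralType BS23 (TightSpan VTree) :=
  ⟨bst, bsh, loxodromic_of_dist _ dist_t, loxodromic_of_dist _ dist_h, disjoint_fixed⟩

theorem bs_hasGeneralTypeAction : HasGeneralTypeAction BS23 :=
  ⟨TightSpan VTree, inferInstance, inferInstance, inferInstance,
    ⟨TightSpan.isGeodesic, 0, le_rfl, hyperbolic_of_four_point four_point_X⟩, bs_generalType⟩

end Pool.Agent.Helper89.IG
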